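import Mathlib
import Pool.Agent.L5helper63.UP.Defs

/-!
# The unitary polarity graph: the part FINAL
-/

set_option autoImplicit false

namespace Pool.Agent.L5helper61.UP

open Finset Pool.Agent.L5helper63.UP

/-- the numerical contradiction -/
theorem numeric (q a u eA eU : ℝ) (hq : 1000000 ≤ q)
    (ha : (q + 1) * ((1 / 2 - 1 / 252) * q ^ 4 - q ^ 4 * (q + 1) / (q ^ 2 - 1)) ≤ a)
    (hau : a ≤ u) (hu : u ≤ q ^ 4 * (q + 1))
    (hA : |eA - a ^ 2 / q ^ 2| ≤ a * (q ^ 2 * Real.sqrt (q + 1)))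
    (hU : |eU - u ^ 2 / q ^ 2| ≤ u * (q ^ 2 * Real.sqrt (q + 1)))
    (hmain : 126 * (eA * u) ≤ 62 * (a * eU)) : False := by
  set s := Real.sqrt (q + 1) with hs
  have hq1 : 0 < q - 1 := by linarith
  have hq0 : 0 < q := by linarith
  have hss : s * s = q + 1 := Real.mul_self_sqrt (by linarith)
  have hs1 : 1000 ≤ s := by
    rw [hs]
    apply Real.le_sqrt_of_sq_le
    linarith
  have e1 : q ^ 4 * (q + 1) / (q ^ 2 - 1) = q ^ 4 / (q - 1) := by
    have : q ^ 2 - 1 = (q - 1) * (q + 1) := by ring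
    rw [this]
    field_simp
  rw [e1] at ha
  have e2 : q ^ 4 / (q - 1) ≤ q ^ 4 / 999999 := by
    apply div_le_div_of_nonneg_left (by positivity) (by norm_num) (by linarith)
  have ha2 : (q + 1) * (q ^ 4 * (125 / 252 - 1 / 999999)) ≤ a := by
    refine le_trans ?_ ha
    apply mul_le_mul_of_nonneg_left _ (by linarith)
    nlinarith [e2]
  have hapos : 0 < a := by
    refine lt_of_lt_of_le ?_ ha2
    have : (0 : ℝ) < 125 / 252 - 1 / 999999 := by norm_num
    positivity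
  have hupos : 0 < u := lt_of_lt_of_le hapos hau
  have hA' : a ^ 2 / q ^ 2 - a * (q ^ 2 * s) ≤ eA := by
    have := (abs_le.mp hA).1
    linarith
  have hU' : eU ≤ u ^ 2 / q ^ 2 + u * (q ^ 2 * s) := by
    have := (abs_le.mp hU).2
    linarith
  -- divide by `a u`
  have h1 : 126 * ((a ^ 2 / q ^ 2 - a * (q ^ 2 * s)) * u) ≤
      62 * (a * (u ^ 2 / q ^ 2 + u * (q ^ 2 * s))) := by
    calc 126 * ((a ^ 2 / q ^ 2 - a * (q ^ 2 * s)) * u) ≤ 126 * (eA * u) := by
          apply mul_le_mul_of_nonneg_left _ (by norm_num)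
          exact mul_le_mul_of_nonneg_right hA' hupos.le
      _ ≤ 62 * (a * eU) := hmain
      _ ≤ _ := by
          apply mul_le_mul_of_nonneg_left _ (by norm_num)
          exact mul_le_mul_of_nonneg_left hU' hapos.le
  have h2 : (a * u) * (126 * (a / q ^ 2 - q ^ 2 * s)) ≤ (a * u) * (62 * (u / q ^ 2 + q ^ 2 * s)) := by
    calc (a * u) * (126 * (a / q ^ 2 - q ^ 2 * s)) =
          126 * ((a ^ 2 / q ^ 2 - a * (q ^ 2 * s)) * u) := by ring
      _ ≤ _ := h1
      _ = (a * u) * (62 * (u / q ^ 2 + q ^ 2 * s)) := by ring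
  have h3 : 126 * (a / q ^ 2 - q ^ 2 * s) ≤ 62 * (u / q ^ 2 + q ^ 2 * s) :=
    le_of_mul_le_mul_left h2 (mul_pos hapos hupos)
  have h4 : u / q ^ 2 ≤ q ^ 2 * (q + 1) := by
    rw [div_le_iff₀ (by positivity)]
    calc u ≤ q ^ 4 * (q + 1) := hu
      _ = _ := by ring
  have h5 : (q + 1) * (q ^ 2 * (125 / 252 - 1 / 999999)) ≤ a / q ^ 2 := by
    rw [le_div_iff₀ (by positivity)]
    calc (q + 1) * (q ^ 2 * (125 / 252 - 1 / 999999)) * q ^ 2 =
          (q + 1) * (q ^ 4 * (125 / 252 - 1 / 999999)) := by ring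
      _ ≤ a := ha2
  have h6 : q ^ 2 * (126 * (125 / 252 - 1 / 999999) * (s * s)) ≤ q ^ 2 * (62 * (s * s) + 188 * s) := by
    rw [hss]
    nlinarith [h3, h4, h5]
  have h7 : 126 * (125 / 252 - 1 / 999999) * (s * s) ≤ 62 * (s * s) + 188 * s :=
    le_of_mul_le_mul_left h6 (by positivity)
  nlinarith [h7, hs1]

theorem final : St_FINAL := by
  classical
  intro hN hM hP hMain hF H
  obtain ⟨N, hH⟩ := H (1 / 252) (by norm_num)
  obtain ⟨F, i1, i2, i3, i4, hS, hc, hs⟩ := hF (2 * (N + 10) + 1) ⟨N + 10, rfl⟩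
  have hodd : Odd (5 ^ (2 * (N + 10) + 1)) := Odd.pow (by decide)
  have hNq : N ≤ 5 ^ (2 * (N + 10) + 1) := by
    have h1 : 2 * (N + 10) + 1 < 5 ^ (2 * (N + 10) + 1) := Nat.lt_pow_self (by norm_num)
    omega
  have hq6 : 1000000 ≤ 5 ^ (2 * (N + 10) + 1) := by
    calc 1000000 ≤ 5 ^ 21 := by norm_num
      _ ≤ 5 ^ (2 * (N + 10) + 1) := Nat.pow_le_pow_right (by norm_num) (by omega)
  generalize 5 ^ (2 * (N + 10) + 1) = q at hS hodd hNq hq6
  obtain ⟨S, hScard, hfree⟩ := hH q F hodd hNq hS.hcard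
  obtain ⟨hP1, hP2⟩ := hP F q hS S
  have hP3 := hP2 hfree
  have hAmem : ∀ v ∈ vecs S, hm v v = 1 := by
    intro v hv
    unfold vecs at hv
    exact (mem_filter.mp hv).2.1
  have hAsub : vecs S ⊆ uv F := by
    intro v hv
    unfold uv
    exact mem_filter.mpr ⟨mem_univ _, hAmem v hv⟩
  have hm1 := hMain F q hS hc hs (vecs S) hAmem hP3
  have hmixA := hM F q hS (vecs S) hAmem
  have hmixU := hM F q hS (uv F) (fun v hv => (mem_filter.mp hv).2)
  have hn2 : (uv F).card ≤ q ^ 4 * (q + 1) := hN F q hS 1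
  refine numeric (q : ℝ) ((vecs S).card : ℝ) ((uv F).card : ℝ) (ep (vecs S) : ℝ) (ep (uv F) : ℝ)
    (by exact_mod_cast hq6) ?_ (by exact_mod_cast card_le_card hAsub) (by exact_mod_cast hn2) hmixA hmixU
    (by exact_mod_cast hm1)
  refine le_trans ?_ hP1
  apply mul_le_mul_of_nonneg_left _ (by positivity)
  linarith

end Pool.Agent.L5helper61.UP
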